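import Pool.Agent.Helper585.Wk.Asm

/-!
Failure of additivity of the edge excess invariant in dimension 4.

Let A be the 9-vertex triangulation of a closed 4-manifold with f-vector (9,36,84,90,36) (Kuehnel).
Every triangulation K of the space of A has Euler characteristic 3, hence (Dehn-Sommerville
equations, proved here for arbitrary triangulations of topological 4-manifolds) f_2 + 10 f_0 =
4 f_1 + 30; generic rigidity (Fogelsanger's theorem) and a growth estimate for spaces of symmetric
tensors applied to the affine 3-stresses then give f_1 >= 5 f_0 - 9. So an additive invariant would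
have to be at least 24 on the fourfold sum A # A # A # A. But an explicit chain of bistellar flips
leads from a triangulation of (A # A) # (A # A) to a complex with 20 vertices and 108 edges, for
which f_1 - 5 f_0 + 15 = 23.
-/

set_option autoImplicit false

namespace Pool.Agent.Results.MP_07c156_gt.NotAdditive

open Pool.Agent.Helper585.Wk Pool.Agent.Helper585.Wk.Dat

/-- There are closed connected 4-manifolds `M`, `N` and a manifold sum `P` of them, all three with
triangulations, such that the normalised invariant of `P` is not the sum of those of `M` and `N`;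
all the values involved are finite. -/
theorem result : ∃ (M N P : Type) (_ : TopologicalSpace M) (_ : TopologicalSpace N)
    (_ : TopologicalSpace P),
    ClosedManifold 4 M ∧ ClosedManifold 4 N ∧ ClosedManifold 4 P ∧
    (∃ (n : ℕ) (K : Cx n), IsTriangulation M K) ∧
    (∃ (n : ℕ) (K : Cx n), IsTriangulation N K) ∧
    (∃ (n : ℕ) (K : Cx n), IsTriangulation P K) ∧
    IsManifoldSum 4 M N P ∧
    ∃ gM gN gP gS : ℤ, IsGamma 4 M gM ∧ IsGamma 4 N gN ∧ IsGamma 4 P gP ∧
      IsGamma 4 (Metric.sphere (0 : EuclideanSpace ℝ (Fin 5)) 1) gS ∧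
      gP - gS ≠ (gM - gS) + (gN - gS) := by
  obtain ⟨hA⟩ := eA
  obtain ⟨hB⟩ := eB
  obtain ⟨hC⟩ := eC
  obtain ⟨hD⟩ := eD
  obtain ⟨hAB⟩ := eAB
  obtain ⟨hCD⟩ := eCD
  obtain ⟨h2⟩ := e2
  obtain ⟨h4⟩ := e4
  -- the values
  obtain ⟨g1, hg1, -, -⟩ := exists_gamma _ manA (ofL 31 lA) (tri_self _)
  obtain ⟨g2, hg2, -, -⟩ := exists_gamma _ man2 (ofL 31 S2) (tri_self _)
  obtain ⟨g4, hg4, -, hg4'⟩ := exists_gamma _ manK (ofL 31 Kf) (tri_self _)
  have h1 : -9 ≤ g1 := hg1.2 admA
  have h8 : g4 ≤ 8 := by
    have e0 := f_ofL 31 0 Kf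
    have e1 := f_ofL 31 1 Kf
    rw [fK.1] at e0
    rw [fK.2] at e1
    rw [e0, e1] at hg4'
    norm_num at hg4'
    exact hg4'
  by_cases h : g2 + 15 = (g1 + 15) + (g1 + 15)
  · refine ⟨(ofL 31 lC5).space, (ofL 31 lD5).space, (ofL 31 L4).space, inferInstance,
      inferInstance, inferInstance, closedManifold_congr _ _ hC man2,
      closedManifold_congr _ _ (hCD.trans hD) man2, closedManifold_congr _ _ h4 manK,
      ⟨31, _, tri_self _⟩, ⟨31, _, tri_self _⟩, ⟨31, _, tri_self _⟩, sumCD, g2, g2, g4, -15,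
      isGamma_congr _ _ hC g2 hg2, isGamma_congr _ _ (hCD.trans hD) g2 hg2,
      isGamma_congr _ _ h4 g4 hg4, gamma_sphere, ?_⟩
    omega
  · refine ⟨(ofL 31 lA5).space, (ofL 31 lB5).space, (ofL 31 L2).space, inferInstance,
      inferInstance, inferInstance, closedManifold_congr _ _ hA manA,
      closedManifold_congr _ _ (hAB.trans hB) manA, closedManifold_congr _ _ h2 man2,
      ⟨31, _, tri_self _⟩, ⟨31, _, tri_self _⟩, ⟨31, _, tri_self _⟩, sumAB, g1, g1, g2, -15,
      isGamma_congr _ _ hA g1 hg1, isGamma_congr _ _ (hAB.trans hB) g1 hg1,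
      isGamma_congr _ _ h2 g2 hg2, gamma_sphere, ?_⟩
    omega

end Pool.Agent.Results.MP_07c156_gt.NotAdditive
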